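import Pool.Agent.H12.UT.Targets2

/-!
MP_8b378c_ag, universal torsors: the norm of `L` over `ℚ(x, y, z)`.
-/

open Polynomial
open Pool.Agent.H12.UT

namespace Pool.Agent.H31.UT

open IntermediateField in
lemma gal_ext_gen {F L : Type} [Field F] [Field L] [Algebra F L] (p : Fin 3 → L)
    (hgen : IntermediateField.adjoin F (Set.range p) = ⊤)
    (f g : L →ₐ[F] L) (h : ∀ i, f (p i) = g (p i)) : f = g := by
  ext x
  have hx : x ∈ IntermediateField.adjoin F (Set.range p) := by rw [hgen]; trivial
  induction hx using IntermediateField.adjoin_induction with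
  | mem x hx => obtain ⟨i, rfl⟩ := hx; exact h i
  | algebraMap x => simp
  | add x y hx hy h1 h2 => rw [map_add, map_add, h1, h2]
  | inv x hx h1 => rw [map_inv₀, map_inv₀, h1]
  | mul x y hx hy h1 h2 => rw [map_mul, map_mul, h1, h2]

lemma gal_quad {F L : Type} [Field F] [Field L] [Algebra F L] (x : F) (p : L)
    (h : p ^ 2 = algebraMap F L (2 * x) * p + 1) :
    IsIntegral F p ∧ Module.finrank F (IntermediateField.adjoin F {p}) ≤ 2 := by
  have hq : (X ^ 2 - C (2 * x) * X - 1 : F[X]).natDegree = 2 := by compute_degree!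
  have hm : (X ^ 2 - C (2 * x) * X - 1 : F[X]).Monic := by monicity!
  have ha : aeval p (X ^ 2 - C (2 * x) * X - 1 : F[X]) = 0 := by
    simp only [map_sub, map_pow, aeval_X, map_mul, aeval_C, map_one]
    rw [h, ← map_mul]
    ring
  have hi : IsIntegral F p := ⟨_, hm, by rw [← aeval_def]; exact ha⟩
  refine ⟨hi, ?_⟩
  rw [IntermediateField.adjoin.finrank hi, ← hq]
  exact natDegree_le_of_dvd (minpoly.dvd F p ha) hm.ne_zero

theorem pf_GAL : T_GAL := by
  intro L _ _ σ p hLD
  have h22 : (2 : L) ≠ 0 := by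
    rw [← map_ofNat (algebraMap Kap L) 2]
    exact (_root_.map_ne_zero _).2 two_ne_zero
  have hp : ∀ i, (p i) ^ 2 = algebraMap Kap L (2 * xx i) * p i + 1 := by
    intro i
    have h1 := hLD.xp i
    have h2 := hLD.ne i
    rw [map_mul, h1, map_ofNat]
    field_simp
    ring
  have hint : ∀ i, IsIntegral Kap (p i) := fun i => (gal_quad _ _ (hp i)).1
  have hfr : ∀ i, Module.finrank Kap (IntermediateField.adjoin Kap {p i}) ≤ 2 :=
    fun i => (gal_quad _ _ (hp i)).2
  have hrange : Set.range p = {p 0} ∪ ({p 1} ∪ {p 2}) := by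
    ext y
    constructor
    · rintro ⟨i, rfl⟩
      fin_cases i <;> simp
    · rintro (rfl | rfl | rfl)
      exacts [⟨0, rfl⟩, ⟨1, rfl⟩, ⟨2, rfl⟩]
  have htop : (⊤ : IntermediateField Kap L) = IntermediateField.adjoin Kap {p 0} ⊔
      (IntermediateField.adjoin Kap {p 1} ⊔ IntermediateField.adjoin Kap {p 2}) := by
    rw [← hLD.gen, hrange, IntermediateField.adjoin_union, IntermediateField.adjoin_union]
  have : FiniteDimensional Kap (IntermediateField.adjoin Kap {p 0}) :=
    IntermediateField.adjoin.finiteDimensional (hint 0)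
  have : FiniteDimensional Kap (IntermediateField.adjoin Kap {p 1}) :=
    IntermediateField.adjoin.finiteDimensional (hint 1)
  have : FiniteDimensional Kap (IntermediateField.adjoin Kap {p 2}) :=
    IntermediateField.adjoin.finiteDimensional (hint 2)
  have hfd0 : FiniteDimensional Kap (⊤ : IntermediateField Kap L) := by
    rw [htop]; infer_instance
  have hfd : FiniteDimensional Kap L :=
    (IntermediateField.topEquiv (F := Kap) (E := L)).toLinearEquiv.finiteDimensional
  have h8 : Module.finrank Kap L ≤ 8 := by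
    rw [← IntermediateField.finrank_top', htop]
    have e1 := IntermediateField.finrank_sup_le (IntermediateField.adjoin Kap {p 0})
      (IntermediateField.adjoin Kap {p 1} ⊔ IntermediateField.adjoin Kap {p 2})
    have e2 := IntermediateField.finrank_sup_le (IntermediateField.adjoin Kap {p 1})
      (IntermediateField.adjoin Kap {p 2})
    have h0 := hfr 0
    have h1 := hfr 1
    have h2 := hfr 2
    have e3 := Nat.mul_le_mul h1 h2
    have e4 := Nat.mul_le_mul h0 (e2.trans e3)
    exact e1.trans (e4.trans (by norm_num))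
  refine ⟨hfd, ?_⟩
  -- the automorphisms
  have hne : ∀ i, -(p i)⁻¹ ≠ p i := by
    intro i h
    have h2 := hLD.ne i
    refine hLD.neg 1 (p i) one_ne_zero h2 ?_
    have h3 : N3 (fun i => (σ i).toRingEquiv) (1 : L) = 1 := by simp [N3]
    rw [h3]
    have h4 : p i * p i = -1 := by
      nth_rewrite 1 [← h]
      rw [neg_mul, inv_mul_cancel₀ h2]
    linear_combination h4
  let c : Bool → Fin 3 → (L ≃ₐ[Kap] L) := fun b i => if b then σ i else 1
  let e : Bool × Bool × Bool → (L ≃ₐ[Kap] L) := fun b => c b.1 0 * (c b.2.1 1 * c b.2.2 2)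
  have hc : ∀ b i j, i ≠ j → c b i (p j) = p j := by
    intro b i j hij
    cases b
    · rfl
    · exact hLD.sq i j hij
  have hcc : ∀ b i, c b i (p i) = if b then -(p i)⁻¹ else p i := by
    intro b i
    cases b
    · rfl
    · exact hLD.sp i
  have he0 : ∀ b, e b (p 0) = if b.1 then -(p 0)⁻¹ else p 0 := by
    intro b
    change c b.1 0 (c b.2.1 1 (c b.2.2 2 (p 0))) = _
    rw [hc _ 2 0 (by decide), hc _ 1 0 (by decide), hcc]
  have he1 : ∀ b, e b (p 1) = if b.2.1 then -(p 1)⁻¹ else p 1 := by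
    intro b
    change c b.1 0 (c b.2.1 1 (c b.2.2 2 (p 1))) = _
    rw [hc _ 2 1 (by decide), hcc]
    split_ifs
    · rw [map_neg, map_inv₀, hc _ 0 1 (by decide)]
    · rw [hc _ 0 1 (by decide)]
  have he2 : ∀ b, e b (p 2) = if b.2.2 then -(p 2)⁻¹ else p 2 := by
    intro b
    change c b.1 0 (c b.2.1 1 (c b.2.2 2 (p 2))) = _
    rw [hcc]
    split_ifs
    · rw [map_neg, map_inv₀, hc _ 1 2 (by decide), map_neg, map_inv₀, hc _ 0 2 (by decide)]
    · rw [hc _ 1 2 (by decide), hc _ 0 2 (by decide)]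
  have hinj : Function.Injective e := by
    rintro ⟨a, b, d⟩ ⟨a', b', d'⟩ h
    have key : ∀ (i : Fin 3) (s t : Bool), (if s then -(p i)⁻¹ else p i) =
        (if t then -(p i)⁻¹ else p i) → s = t := by
      intro i s t hst
      cases s <;> cases t <;> simp only [Bool.false_eq_true, if_false, if_true] at hst ⊢
      · exact (hne i hst.symm).elim
      · exact (hne i hst).elim
    have k0 := key 0 a a' (by rw [← he0 (a, b, d), ← he0 (a', b', d'), h])
    have k1 := key 1 b b' (by rw [← he1 (a, b, d), ← he1 (a', b', d'), h])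
    have k2 := key 2 d d' (by rw [← he2 (a, b, d), ← he2 (a', b', d'), h])
    rw [k0, k1, k2]
  have hcard1 : Nat.card (L ≃ₐ[Kap] L) ≤ Module.finrank Kap L := by
    refine le_trans ?_ (card_algHom_le_finrank Kap L L)
    exact Nat.card_le_card_of_injective (fun s : L ≃ₐ[Kap] L => (s : L →ₐ[Kap] L))
      (fun s t h => AlgEquiv.ext fun x => DFunLike.congr_fun h x)
  have hcard2 : 8 ≤ Nat.card (L ≃ₐ[Kap] L) := by
    have := Nat.card_le_card_of_injective e hinj
    simpa using this
  have hcard : Nat.card (L ≃ₐ[Kap] L) = Module.finrank Kap L :=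
    le_antisymm hcard1 (h8.trans hcard2)
  have hgal : IsGalois Kap L := IsGalois.of_card_aut_eq_finrank Kap L hcard
  have hbij : Function.Bijective e := by
    rw [Fintype.bijective_iff_injective_and_card]
    refine ⟨hinj, ?_⟩
    have h9 : Nat.card (L ≃ₐ[Kap] L) = 8 := le_antisymm (hcard1.trans h8) hcard2
    rw [Nat.card_eq_fintype_card] at h9
    rw [h9]
    simp
  intro f
  rw [Algebra.norm_eq_prod_automorphisms, ← hbij.prod_comp]
  simp only [Fintype.prod_prod_type, Fintype.prod_bool]
  change (σ 0 (σ 1 (σ 2 f)) * σ 0 (σ 1 f) * (σ 0 (σ 2 f) * σ 0 f)) *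
    ((σ 1 (σ 2 f) * σ 1 f) * (σ 2 f * f)) = f * σ 0 f * σ 1 f * σ 2 f * σ 0 (σ 1 f) *
      σ 0 (σ 2 f) * σ 1 (σ 2 f) * σ 0 (σ 1 (σ 2 f))
  ring

end Pool.Agent.H31.UT
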