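import Pool.Agent.H12.UT.Targets2

/-!
MP_8b378c_ag, universal torsors: four elements are not squares, and `2` is not a norm.
-/

open Polynomial
open Pool.Agent.H12.UT

namespace Pool.Agent.H31.UT

lemma nsq_int : ∀ (N : ℕ) (x y z : ℤ), x.natAbs + y.natAbs + z.natAbs ≤ N →
    x ^ 2 - 90 * y ^ 2 = 2 * z ^ 2 → x = 0 ∧ y = 0 ∧ z = 0 := by
  intro N
  induction N with
  | zero =>
    intro x y z h _
    omega
  | succ N ih =>
    intro x y z h he
    have h5 : (5 : ℤ) ∣ x ∧ (5 : ℤ) ∣ z := by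
      have hx : x % 5 = 0 ∨ x % 5 = 1 ∨ x % 5 = 2 ∨ x % 5 = 3 ∨ x % 5 = 4 := by omega
      have hz : z % 5 = 0 ∨ z % 5 = 1 ∨ z % 5 = 2 ∨ z % 5 = 3 ∨ z % 5 = 4 := by omega
      have hm : (x ^ 2 - 2 * z ^ 2) % 5 = 0 := by
        have : x ^ 2 - 2 * z ^ 2 = 5 * (18 * y ^ 2) := by linarith
        rw [this]
        exact Int.mul_emod_right 5 _
      have hm2 : ((x % 5) ^ 2 - 2 * (z % 5) ^ 2) % 5 = 0 := by
        rw [← hm]
        simp [Int.sub_emod, Int.mul_emod, pow_two]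
      rcases hx with hx | hx | hx | hx | hx <;> rcases hz with hz | hz | hz | hz | hz <;>
        rw [hx, hz] at hm2 <;> omega
    obtain ⟨⟨a, ha⟩, ⟨c, hc⟩⟩ := h5
    have h5y : (5 : ℤ) ∣ y := by
      have h1 : (5 : ℤ) ∣ 18 * y ^ 2 := by
        refine ⟨a ^ 2 - 2 * c ^ 2, ?_⟩
        rw [ha, hc] at he
        linarith
      have h2 : IsCoprime (5 : ℤ) 18 := ⟨11, -3, by norm_num⟩
      have h3 : (5 : ℤ) ∣ y ^ 2 := h2.dvd_of_dvd_mul_left h1
      exact (Int.prime_iff_natAbs_prime.2 (by norm_num)).dvd_of_dvd_pow h3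
    obtain ⟨b, hb⟩ := h5y
    have he' : a ^ 2 - 90 * b ^ 2 = 2 * c ^ 2 := by
      rw [ha, hb, hc] at he
      linarith
    by_cases h0 : a = 0 ∧ b = 0 ∧ c = 0
    · obtain ⟨h1, h2, h3⟩ := h0
      rw [ha, hb, hc, h1, h2, h3]
      norm_num
    · have := ih a b c (by omega) he'
      exact absurd this h0

lemma nsq_rat (x y z : ℚ) (h : x ^ 2 - 90 * y ^ 2 = 2 * z ^ 2) : x = 0 ∧ y = 0 ∧ z = 0 := by
  have hx : (x.den : ℚ) ≠ 0 := Nat.cast_ne_zero.2 x.den_nz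
  have hy : (y.den : ℚ) ≠ 0 := Nat.cast_ne_zero.2 y.den_nz
  have hz : (z.den : ℚ) ≠ 0 := Nat.cast_ne_zero.2 z.den_nz
  have ex : (x.num : ℚ) = x * x.den := by rw [Rat.mul_den_eq_num]
  have ey : (y.num : ℚ) = y * y.den := by rw [Rat.mul_den_eq_num]
  have ez : (z.num : ℚ) = z * z.den := by rw [Rat.mul_den_eq_num]
  have key := nsq_int _ (x.num * y.den * z.den) (y.num * x.den * z.den) (z.num * x.den * y.den)
    le_rfl (by
      have : ((x.num * y.den * z.den : ℤ) : ℚ) ^ 2 - 90 * ((y.num * x.den * z.den : ℤ) : ℚ) ^ 2 =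
          2 * ((z.num * x.den * y.den : ℤ) : ℚ) ^ 2 := by
        push_cast
        rw [ex, ey, ez]
        linear_combination ((x.den : ℚ) * y.den * z.den) ^ 2 * h
      exact_mod_cast this)
  obtain ⟨k1, k2, k3⟩ := key
  have g1 : ((x.num * y.den * z.den : ℤ) : ℚ) = 0 := by rw [k1]; norm_num
  have g2 : ((y.num * x.den * z.den : ℤ) : ℚ) = 0 := by rw [k2]; norm_num
  have g3 : ((z.num * x.den * y.den : ℤ) : ℚ) = 0 := by rw [k3]; norm_num
  push_cast at g1 g2 g3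
  rw [ex] at g1
  rw [ey] at g2
  rw [ez] at g3
  refine ⟨?_, ?_, ?_⟩
  · simpa [hx, hy, hz] using g1
  · simpa [hx, hy, hz] using g2
  · simpa [hx, hy, hz] using g3

lemma nsq_two : ¬ IsSquare (2 : ℚ) := by
  rintro ⟨r, hr⟩
  have h := nsq_rat (2 * r) 0 2 (by linear_combination -4 * hr)
  norm_num at h

lemma nsq_ninety : ¬ IsSquare (90 : ℚ) := by
  rintro ⟨r, hr⟩
  have h := nsq_rat r 1 0 (by linear_combination -hr)
  norm_num at h

theorem pf_NSQ : T_NSQ := by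
  intro h1 h2
  have e : ∀ i : Fin 3, xx i ^ 2 + 1 = algebraMap (MvPolynomial (Fin 3) ℚ) Kap
      (MvPolynomial.X i ^ 2 + 1) := by
    intro i
    rw [map_add, map_pow, map_one]
    rfl
  have sq : ∀ i : Fin 3, ¬ IsSquare (xx i ^ 2 + 1) := by
    intro i
    rw [e i]
    apply h1
    have : MvPolynomial.eval (fun _ => (1 : ℚ)) (MvPolynomial.X i ^ 2 + 1) = 2 := by
      simp
      norm_num
    rw [this]
    exact nsq_two
  have eg : gK = algebraMap (MvPolynomial (Fin 3) ℚ) Kap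
      ((MvPolynomial.X 0 ^ 2 + 1) * (2 * MvPolynomial.X 2 ^ 2 + 1) *
        (2 * (MvPolynomial.X 0 ^ 2 + 1) * (MvPolynomial.X 1 ^ 2 + 1) *
          (MvPolynomial.X 2 ^ 2 + 1) - 1)) := by
    simp only [gK, aK, bK, dK, m3, m4, xx, map_mul, map_add, map_sub, map_pow, map_one,
      map_ofNat]
  have ev : MvPolynomial.eval (fun _ => (1 : ℚ))
      ((MvPolynomial.X 0 ^ 2 + 1) * (2 * MvPolynomial.X 2 ^ 2 + 1) *
        (2 * (MvPolynomial.X 0 ^ 2 + 1) * (MvPolynomial.X 1 ^ 2 + 1) *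
          (MvPolynomial.X 2 ^ 2 + 1) - 1) : MvPolynomial (Fin 3) ℚ) = 90 := by
    simp only [map_mul, map_add, map_sub, map_pow, map_one, MvPolynomial.eval_X, map_ofNat]
    norm_num
  refine ⟨sq 0, sq 1, sq 2, ?_, ?_⟩
  · rw [eg]
    apply h1
    rw [ev]
    exact nsq_ninety
  · rw [eg]
    apply h2
    intro x y z h
    rw [ev] at h
    exact nsq_rat x y z h

end Pool.Agent.H31.UT
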