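import Pool.Agent.H12.UT.Targets2

/-!
MP_8b378c_ag, universal torsors: the units of the ring of Laurent polynomials.
-/

open Polynomial
open Pool.Agent.H12.UT

namespace Pool.Agent.H31.UT

theorem pf_UNI : T_UNI := by
  intro w hw
  obtain ⟨w1, hw1⟩ := hw.exists_right_inv
  set P : MvPolynomial (Fin 3) ℚ := MvPolynomial.X 0 * MvPolynomial.X 1 * MvPolynomial.X 2 with hP
  obtain ⟨n, r, hr⟩ := IsLocalization.Away.surj P w
  obtain ⟨n1, r1, hr1⟩ := IsLocalization.Away.surj P w1
  have hP0 : P ≠ 0 := mul_ne_zero (mul_ne_zero (MvPolynomial.X_ne_zero _)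
    (MvPolynomial.X_ne_zero _)) (MvPolynomial.X_ne_zero _)
  have hinj : Function.Injective (algebraMap (MvPolynomial (Fin 3) ℚ) S3) :=
    IsLocalization.injective S3 (powers_le_nonZeroDivisors_of_noZeroDivisors hP0)
  have hrr : r * r1 = P ^ (n + n1) := by
    apply hinj
    rw [map_mul, ← hr, ← hr1, map_pow, pow_add]
    linear_combination (algebraMap (MvPolynomial (Fin 3) ℚ) S3 P ^ n *
      algebraMap (MvPolynomial (Fin 3) ℚ) S3 P ^ n1) * hw1
  have hmon : P ^ (n + n1) = MvPolynomial.monomial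
      ((n + n1) • (Finsupp.single 0 1 + Finsupp.single 1 1 + Finsupp.single 2 1)) 1 := by
    rw [hP, MvPolynomial.X, MvPolynomial.X, MvPolynomial.X, MvPolynomial.monomial_mul,
      MvPolynomial.monomial_mul, MvPolynomial.monomial_pow]
    simp
  have hdvd : r ∣ MvPolynomial.monomial
      ((n + n1) • (Finsupp.single 0 1 + Finsupp.single 1 1 + Finsupp.single 2 1)) 1 := by
    rw [← hmon, ← hrr]
    exact Dvd.intro _ rfl
  obtain ⟨m, u, -, hu, hru⟩ := MvPolynomial.dvd_monomial_one_iff_exists.1 hdvd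
  refine ⟨u, fun _ => n, fun i => m i, hu.ne_zero, ?_⟩
  have e1 : ∏ i : Fin 3, xS i ^ n = algebraMap (MvPolynomial (Fin 3) ℚ) S3 P ^ n := by
    rw [Finset.prod_pow, hP, map_mul, map_mul, Fin.prod_univ_three]
    rfl
  have e2 : r = MvPolynomial.C u * ∏ i : Fin 3, MvPolynomial.X i ^ m i := by
    rw [hru, MvPolynomial.monomial_eq, Finsupp.prod_fintype _ _ (fun i => pow_zero _)]
  rw [e1, hr, e2, map_mul, map_prod]
  congr 1
  · exact Finset.prod_congr rfl fun i _ => by rw [map_pow]; rfl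

end Pool.Agent.H31.UT
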